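import Mathlib
import Pool.Agent.Work.MP_9a67bd_gt.Bridge

/-!
# 3-Sasakian Kirwan surjectivity fails for a compact connected group acting freely

For the group `G = Sp(1)` of unit quaternions, embedded diagonally in `Sp(6)` and acting on the
unit sphere `S^23` of `ℍ^6`, the reduction `N/G` is a connected manifold of dimension `11`
(it is `SO(6)/(SO(2) × Sp(1))`), and the Kirwan map `H^2_G(S^23) → H^2(N/G)` is not onto.
-/

open scoped Quaternion

noncomputable section

namespace Pool.Agent.Results.MP_9a67bd_gt.KirwanFails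

open Pool.Agent.Work.MP_9a67bd_gt.Official

universe u

theorem result :
    ∃ (n k : ℕ) (G : Subgroup (Sp (n + 1))),
      (n = 5 ∧ k = 2 ∧ G = diagSp (n + 1) ∧ dimG G = 3) ∧
      IsCompact (G : Set (Sp (n + 1))) ∧
      IsConnected (G : Set (Sp (n + 1))) ∧
      (∀ (g : Grp G) (x : QSphere (n + 1)), g • x = x → g = 1) ∧
      PathConnectedSpace (Reduction G) ∧
      2 * k + 1 + 4 * dimG G ≤ 4 * n + 3 ∧
      ∀ (K : Type) [Field K] [CharZero K] (E : Type u) [TopologicalSpace E] [MulAction (Grp G) E]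
        [Nonempty E], ¬ KirwanOnto G E K k := by
  have hfree : ∀ (g : Grp (diagSp 6)) (x : QSphere 6), g • x = x → g = 1 := by
    intro g x h
    exact Subtype.ext (Pool.Agent.Work.MP_9a67bd_gt.diagSp_free 6 g.1 g.2 x h)
  have hdim : dimG (diagSp 6) = 3 := Pool.Agent.Work.MP_9a67bd_gt.finrank_lieAlg 6
  refine ⟨5, 2, diagSp 6, ⟨rfl, rfl, rfl, hdim⟩, Pool.Agent.Work.MP_9a67bd_gt.isCompact_diagSp 6,
    Pool.Agent.Work.MP_9a67bd_gt.isConnected_diagSp 6, hfree,
    Pool.Agent.Work.MP_9a67bd_gt.pathConnected_reduction, ?_, ?_⟩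
  · rw [hdim]
    norm_num
  · intro K _ _ E _ _ _
    exact Pool.Agent.Work.MP_9a67bd_gt.official_not_onto K E

end Pool.Agent.Results.MP_9a67bd_gt.KirwanFails
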